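import Pool.Agent.Helper14D.Stm

/-!
# Part S_rel: the relation `(2N)! * H = ∑ c t * F_t` in valuations
-/

set_option autoImplicit false

open MvPolynomial

namespace Pool.Agent.Helper95.VD

open Pool.Agent.Helper14D

theorem prod_zpow_sum {G : Type} [CommGroupWithZero G] {ι : Type} (s : Finset ι) (f : ι → ℤ)
    (x : G) (hx : x ≠ 0) : ∏ i ∈ s, x ^ (f i) = x ^ (∑ i ∈ s, f i) := by
  classical
  induction s using Finset.induction_on with
  | empty => simp
  | insert a s ha ih => rw [Finset.prod_insert ha, Finset.sum_insert ha, ih, zpow_add₀ hx]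

theorem lf_ne_zero (N : ℕ) (i : Fin (2 * N)) : lf N i ≠ 0 := by
  intro h
  have h1 := congrArg (coeff (Finsupp.single (0 : Fin (N + 1)) 1)) h
  unfold lf at h1
  rw [coeff_sum, Finset.sum_eq_single (0 : Fin (N + 1))] at h1
  · simp at h1
  · intro b _ hb
    rw [coeff_C_mul, coeff_X, if_neg, mul_zero]
    intro h2
    exact hb (Finsupp.single_left_injective one_ne_zero h2)
  · intro h2
    exact absurd (Finset.mem_univ _) h2

/-- the coordinates are rational combinations of `N + 1` of the forms -/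
theorem X_comb (N : ℕ) (e : Fin (N + 1) → Fin (2 * N)) (he : Function.Injective e)
    (j : Fin (N + 1)) : ∃ c : Fin (N + 1) → ℚ, (X j : MvPolynomial (Fin (N + 1)) ℚ)
      = ∑ k, C (c k) * lf N (e k) := by
  classical
  set V : Matrix (Fin (N + 1)) (Fin (N + 1)) ℚ := Matrix.vandermonde fun k => ((e k : ℕ) : ℚ)
    with hV
  have hdet : V.det ≠ 0 := by
    rw [hV, Matrix.det_vandermonde_ne_zero_iff]
    intro a b hab
    apply he
    ext
    have hab' : ((e a : ℕ) : ℚ) = ((e b : ℕ) : ℚ) := hab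
    exact_mod_cast hab'
  have hinv : V⁻¹ * V = 1 := Matrix.nonsing_inv_mul V (isUnit_iff_ne_zero.2 hdet)
  refine ⟨fun k => V⁻¹ j k, ?_⟩
  have h1 : ∀ k, lf N (e k) = ∑ l : Fin (N + 1), C (V k l) * X l := by
    intro k
    rfl
  simp only [h1, Finset.mul_sum, ← mul_assoc, ← C_mul]
  rw [Finset.sum_comm]
  have h2 : ∀ l : Fin (N + 1), ∑ k, C (V⁻¹ j k * V k l) * (X l : MvPolynomial (Fin (N + 1)) ℚ)
      = C ((1 : Matrix (Fin (N + 1)) (Fin (N + 1)) ℚ) j l) * X l := by
    intro l
    rw [← Finset.sum_mul, ← map_sum, ← hinv, Matrix.mul_apply]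
  simp only [h2, Matrix.one_apply]
  rw [Finset.sum_eq_single j]
  · simp
  · intro b _ hb
    simp [hb.symm]
  · intro h
    exact absurd (Finset.mem_univ _) h

theorem t_rel (h1 : S_trace) (h2 : S_total) : S_rel := by
  classical
  intro N hN O hO
  obtain ⟨i0, hi0⟩ := Finite.exists_max (fun i : Fin (N + 1) => vl O (X i))
  refine ⟨i0, hi0, ?_⟩
  set x := vl O (X i0 : MvPolynomial (Fin (N + 1)) ℚ) with hx
  have hvl0 : ∀ f : MvPolynomial (Fin (N + 1)) ℚ, f ≠ 0 → vl O f ≠ 0 := by
    intro f hf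
    have : algebraMap (MvPolynomial (Fin (N + 1)) ℚ)
        (FractionRing (MvPolynomial (Fin (N + 1)) ℚ)) f ≠ 0 := by
      rwa [Ne, FaithfulSMul.algebraMap_eq_zero_iff]
    exact (Valuation.ne_zero_iff _).2 this
  have hx0 : x ≠ 0 := hvl0 _ (X_ne_zero _)
  have hC : ∀ c : ℚ, vl O (C c : MvPolynomial (Fin (N + 1)) ℚ) ≤ 1 := by
    intro c
    have h := hO c
    rw [← ValuationSubring.valuation_le_one_iff] at h
    have e : algebraMap (MvPolynomial (Fin (N + 1)) ℚ)
        (FractionRing (MvPolynomial (Fin (N + 1)) ℚ)) (C c)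
        = algebraMap ℚ (FractionRing (MvPolynomial (Fin (N + 1)) ℚ)) c := by
      rw [IsScalarTower.algebraMap_apply ℚ (MvPolynomial (Fin (N + 1)) ℚ)
        (FractionRing (MvPolynomial (Fin (N + 1)) ℚ)), MvPolynomial.algebraMap_eq]
    show O.valuation _ ≤ 1
    rw [e]
    exact h
  have hmul : ∀ f g : MvPolynomial (Fin (N + 1)) ℚ, vl O (f * g) = vl O f * vl O g := by
    intro f g
    show O.valuation _ = _
    rw [map_mul, map_mul]
  have hsum : ∀ {ι : Type} (s : Finset ι) (f : ι → MvPolynomial (Fin (N + 1)) ℚ) (b : O.ValueGroup),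
      (∀ i ∈ s, vl O (f i) ≤ b) → vl O (∑ i ∈ s, f i) ≤ b := by
    intro ι s f b hb
    show O.valuation _ ≤ b
    rw [map_sum]
    exact Valuation.map_sum_le _ hb
  have hsumlt : ∀ {ι : Type} (s : Finset ι) (f : ι → MvPolynomial (Fin (N + 1)) ℚ)
      (b : O.ValueGroup), b ≠ 0 → (∀ i ∈ s, vl O (f i) < b) → vl O (∑ i ∈ s, f i) < b := by
    intro ι s f b hb0 hb
    show O.valuation _ < b
    rw [map_sum]
    exact Valuation.map_sum_lt _ hb0 hb
  have hprod : ∀ {ι : Type} (s : Finset ι) (f : ι → MvPolynomial (Fin (N + 1)) ℚ),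
      vl O (∏ i ∈ s, f i) = ∏ i ∈ s, vl O (f i) := by
    intro ι s f
    show O.valuation _ = _
    rw [map_prod, map_prod]
  -- the normalised valuations of the forms
  set a : Fin (2 * N) → O.ValueGroup := fun i => vl O (lf N i) / x with ha
  have hle : ∀ i, vl O (lf N i) ≤ x := by
    intro i
    refine hsum _ _ _ fun j _ => ?_
    rw [hmul]
    have hj : vl O (X j : MvPolynomial (Fin (N + 1)) ℚ) ≤ x := hi0 j
    calc vl O (C (((i : ℕ) : ℚ) ^ (j : ℕ)) : MvPolynomial (Fin (N + 1)) ℚ)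
          * vl O (X j : MvPolynomial (Fin (N + 1)) ℚ) ≤ 1 * x :=
          mul_le_mul' (hC _) hj
      _ = x := one_mul x
  have ha1 : ∀ i, a i ≤ 1 := by
    intro i
    rw [ha]
    exact (div_le_one₀ (zero_lt_iff.2 hx0)).2 (hle i)
  have hax : ∀ i, vl O (lf N i) = x * a i := by
    intro i
    rw [ha]
    simp only
    rw [mul_div_cancel₀ _ hx0]
  have ha0 : ∀ i, a i ≠ 0 := by
    intro i
    rw [ha]
    exact div_ne_zero (hvl0 _ (lf_ne_zero N i)) hx0
  -- at most `N` of them are less than one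
  set B : Finset (Fin (2 * N)) := Finset.univ.filter fun i => a i < 1 with hB
  have hBcard : B.card ≤ N := by
    by_contra hcon
    push Not at hcon
    obtain ⟨s, hs, hsc⟩ := Finset.exists_subset_card_eq (Nat.succ_le_of_lt hcon)
    have e := (s.orderEmbOfFin hsc)
    obtain ⟨c, hc⟩ := X_comb N (fun k => s.orderEmbOfFin hsc k)
      (s.orderEmbOfFin hsc).injective i0
    have hlt : vl O (∑ k, C (c k) * lf N (s.orderEmbOfFin hsc k)) < x := by
      refine hsumlt _ _ _ hx0 fun k _ => ?_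
      rw [hmul]
      have hk : s.orderEmbOfFin hsc k ∈ B := hs (Finset.orderEmbOfFin_mem s hsc k)
      rw [hB, Finset.mem_filter] at hk
      have hk' : vl O (lf N (s.orderEmbOfFin hsc k)) < x := by
        rw [hax]
        calc x * a _ < x * 1 := by
              exact mul_lt_mul_of_pos_left hk.2 (zero_lt_iff.2 hx0)
          _ = x := mul_one x
      calc vl O (C (c k)) * vl O (lf N (s.orderEmbOfFin hsc k))
          ≤ 1 * vl O (lf N (s.orderEmbOfFin hsc k)) := mul_le_mul' (hC _) le_rfl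
        _ = vl O (lf N (s.orderEmbOfFin hsc k)) := one_mul _
        _ < x := hk'
    rw [← hc] at hlt
    exact lt_irrefl _ hlt
  obtain ⟨P, hBP, -, hPc⟩ := Finset.exists_subsuperset_card_eq (Finset.subset_univ B) hBcard
    (by rw [Finset.card_univ, Fintype.card_fin]; omega)
  have haP : ∀ i, i ∉ P → a i = 1 := by
    intro i hi
    have : ¬ a i < 1 := fun h => hi (hBP (by rw [hB, Finset.mem_filter]; exact ⟨Finset.mem_univ _, h⟩))
    exact le_antisymm (ha1 i) (not_lt.1 this)
  -- the valuation of a product of forms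
  have hS : ∀ S : Finset (Fin (2 * N)), vl O (∏ i ∈ S, lf N i) = x ^ S.card * ∏ i ∈ S ∩ P, a i := by
    intro S
    rw [hprod, Finset.prod_congr rfl fun i _ => hax i, Finset.prod_mul_distrib, Finset.prod_const]
    congr 1
    rw [← Finset.prod_filter_mul_prod_filter_not S (fun i => i ∈ P), Finset.filter_mem_eq_inter]
    rw [Finset.prod_eq_one (s := S.filter fun i => i ∉ P), mul_one]
    intro i hi
    exact haP i (Finset.mem_filter.1 hi).2
  set g : Finset (Fin (2 * N)) × Finset (Fin (2 * N)) → O.ValueGroup :=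
    fun z => max (∏ i ∈ z.1, a i) (∏ i ∈ z.2, a i) with hg
  have hg0 : ∀ z, g z ≠ 0 := by
    intro z
    rw [hg]
    have : (0 : O.ValueGroup) < ∏ i ∈ z.1, a i := zero_lt_iff.2 (Finset.prod_ne_zero_iff.2 fun i _ => ha0 i)
    exact (lt_of_lt_of_le this (le_max_left _ _)).ne'
  have hmax : ∀ t : Pen N, max (vl O (pu N t)) (vl O (pv N t))
      = x ^ t.1.1.card * g (t.1.1 ∩ P, t.1.2 ∩ P) := by
    intro t
    unfold pu pv
    rw [hS, hS, ← t.2.2.1, hg]
    simp only
    exact max_mul_mul_left _ _ _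
  simp only [hmax, mul_zpow]
  rw [Finset.prod_mul_distrib]
  have e1 : ∏ t : Pen N, (x ^ t.1.1.card) ^ (cw N t.1.1.card) = x ^ (2 * N).factorial := by
    have : ∀ t : Pen N, (x ^ t.1.1.card) ^ (cw N t.1.1.card)
        = x ^ (cw N t.1.1.card * (t.1.1.card : ℤ)) := by
      intro t
      rw [← zpow_natCast x, ← zpow_mul, mul_comm]
    rw [Finset.prod_congr rfl fun t _ => this t, prod_zpow_sum _ _ _ hx0, h2 N hN, zpow_natCast]
  have e2 : ∏ t : Pen N, g (t.1.1 ∩ P, t.1.2 ∩ P) ^ (cw N t.1.1.card) = 1 := by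
    rw [← Finset.prod_fiberwise (s := (Finset.univ : Finset (Pen N)))
      (g := fun t : Pen N => (t.1.1 ∩ P, t.1.2 ∩ P))]
    refine Finset.prod_eq_one fun z _ => ?_
    have e3 : ∏ t ∈ (Finset.univ : Finset (Pen N)).filter
        (fun t => (t.1.1 ∩ P, t.1.2 ∩ P) = z), g (t.1.1 ∩ P, t.1.2 ∩ P) ^ (cw N t.1.1.card)
        = g z ^ (∑ t ∈ (Finset.univ : Finset (Pen N)).filter
          (fun t => (t.1.1 ∩ P, t.1.2 ∩ P) = z), cw N t.1.1.card) := by
      rw [← prod_zpow_sum _ _ _ (hg0 z)]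
      refine Finset.prod_congr rfl fun t ht => ?_
      rw [(Finset.mem_filter.1 ht).2]
    rw [e3]
    have hle1 : ∀ s : Finset (Fin (2 * N)), ∏ i ∈ s, a i ≤ 1 := fun s =>
      Finset.prod_le_one' fun i _ => ha1 i
    by_cases hz1 : z.1 = ∅
    · have : g z = 1 := by
        rw [hg]
        simp only [hz1, Finset.prod_empty]
        exact max_eq_left (hle1 _)
      rw [this, one_zpow]
    by_cases hz2 : z.2 = ∅
    · have : g z = 1 := by
        rw [hg]
        simp only [hz2, Finset.prod_empty]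
        exact max_eq_right (hle1 _)
      rw [this, one_zpow]
    by_cases hne : ((Finset.univ : Finset (Pen N)).filter
        (fun t => (t.1.1 ∩ P, t.1.2 ∩ P) = z)).Nonempty
    · obtain ⟨t, ht⟩ := hne
      have htz := (Finset.mem_filter.1 ht).2
      have hz1' : t.1.1 ∩ P = z.1 := congrArg Prod.fst htz
      have hz2' : t.1.2 ∩ P = z.2 := congrArg Prod.snd htz
      have h := h1 N P z.1 z.2 hPc (hz1' ▸ Finset.inter_subset_right)
        (hz2' ▸ Finset.inter_subset_right)
        (hz1' ▸ hz2' ▸ Disjoint.mono Finset.inter_subset_left Finset.inter_subset_left t.2.1)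
        (Finset.nonempty_iff_ne_empty.2 hz1) (Finset.nonempty_iff_ne_empty.2 hz2)
      have e4 : (Finset.univ : Finset (Pen N)).filter (fun t => (t.1.1 ∩ P, t.1.2 ∩ P) = z)
          = (Finset.univ : Finset (Pen N)).filter (fun t => t.1.1 ∩ P = z.1 ∧ t.1.2 ∩ P = z.2) := by
        ext t
        simp only [Finset.mem_filter, Finset.mem_univ, true_and, Prod.ext_iff]
      rw [e4, h, zpow_zero]
    · rw [Finset.not_nonempty_iff_eq_empty.1 hne, Finset.sum_empty, zpow_zero]
  rw [e1, e2, mul_one]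

end Pool.Agent.Helper95.VD
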