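import Pool.Agent.Helper14D.Stm

/-!
# Part (i) of S_deg: the field `k(X)` is finite over `k(y)` and `y` is algebraically independent
-/

set_option autoImplicit false

open MvPolynomial

namespace Pool.Agent.Helper95.VD

open Pool.Agent.Helper14D

section

variable {k : Type} [Field k] {N : ℕ}

theorem aeval_hom_smul {K : Type} [Field K] [Algebra k K] {d : ℕ} {p : MvPolynomial (Fin (N + 1)) k}
    (hp : p.IsHomogeneous d) (c : K) (a : Fin (N + 1) → K) :
    aeval (fun i => c * a i) p = c ^ d * aeval a p := by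
  rw [aeval_def, aeval_def, eval₂_eq, eval₂_eq, Finset.mul_sum]
  refine Finset.sum_congr rfl fun m hm => ?_
  have hd : ∑ i ∈ m.support, m i = d := by
    have := hp (mem_support_iff.1 hm)
    rw [← this, Finsupp.weight_apply, Finsupp.sum]
    exact Finset.sum_congr rfl fun i _ => by simp
  simp only [mul_pow]
  rw [Finset.prod_mul_distrib, Finset.prod_pow_eq_pow_sum, hd]
  ring

/-- integrality of all the `X i * g j ^ M1` over `k[y]` -/
theorem int_all (hv : S_val) (M1 : ℕ) (g : Fin (N + 1) → MvPolynomial (Fin (N + 1)) k)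
    (hb : ∀ O : ValuationSubring (FractionRing (MvPolynomial (Fin (N + 1)) k)),
      (∀ a : k, algebraMap k _ a ∈ O) → ∃ j0, ∀ i j,
        vl O (X i * g j ^ M1) ≤ vl O (X j0 * g j0 ^ M1)) (i j : Fin (N + 1)) :
    IsIntegral (Algebra.adjoin k (Set.range fun j =>
      algebraMap (MvPolynomial (Fin (N + 1)) k) (FractionRing (MvPolynomial (Fin (N + 1)) k))
        (X j * g j ^ M1))).toSubring
      (algebraMap (MvPolynomial (Fin (N + 1)) k) (FractionRing (MvPolynomial (Fin (N + 1)) k))
        (X i * g j ^ M1)) := by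
  refine hv _ _ _ fun O hO => ?_
  have hk : ∀ a : k, algebraMap k (FractionRing (MvPolynomial (Fin (N + 1)) k)) a ∈ O := fun a =>
    hO (Subalgebra.algebraMap_mem _ a)
  obtain ⟨j0, hj0⟩ := hb O hk
  have h1 : vl O (X j0 * g j0 ^ M1) ≤ 1 :=
    (ValuationSubring.valuation_le_one_iff _ _).2
      (hO (Algebra.subset_adjoin (Set.mem_range_self j0)))
  exact (ValuationSubring.valuation_le_one_iff _ _).1 ((hj0 i j).trans h1)

theorem alg_all (hv : S_val) (M1 : ℕ) (g : Fin (N + 1) → MvPolynomial (Fin (N + 1)) k)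
    (hb : ∀ O : ValuationSubring (FractionRing (MvPolynomial (Fin (N + 1)) k)),
      (∀ a : k, algebraMap k _ a ∈ O) → ∃ j0, ∀ i j,
        vl O (X i * g j ^ M1) ≤ vl O (X j0 * g j0 ^ M1)) (i j : Fin (N + 1)) :
    IsAlgebraic (Fy (fun j => X j * g j ^ M1))
      (algebraMap (MvPolynomial (Fin (N + 1)) k) (FractionRing (MvPolynomial (Fin (N + 1)) k))
        (X i * g j ^ M1)) := by
  have h0 := int_all hv M1 g hb i j
  set A := (Algebra.adjoin k (Set.range fun j =>
      algebraMap (MvPolynomial (Fin (N + 1)) k) (FractionRing (MvPolynomial (Fin (N + 1)) k))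
        (X j * g j ^ M1))).toSubring with hA
  obtain ⟨p, hp, hpe⟩ := h0
  have hAF : ∀ x : A, (x : FractionRing (MvPolynomial (Fin (N + 1)) k)) ∈
      Fy (fun j => X j * g j ^ M1) := by
    intro x
    exact IntermediateField.algebra_adjoin_le_adjoin k _ x.2
  let φ : A →+* Fy (fun j => (X j * g j ^ M1 : MvPolynomial (Fin (N + 1)) k)) :=
    RingHom.codRestrict A.subtype (Fy (fun j => X j * g j ^ M1)) hAF
  have hint : IsIntegral (Fy (fun j => (X j * g j ^ M1 : MvPolynomial (Fin (N + 1)) k)))
      (algebraMap (MvPolynomial (Fin (N + 1)) k) (FractionRing (MvPolynomial (Fin (N + 1)) k))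
        (X i * g j ^ M1)) := by
    refine ⟨p.map φ, hp.map φ, ?_⟩
    rw [Polynomial.eval₂_map]
    exact hpe
  exact hint.isAlgebraic

theorem gen_top {F : Type} [Field F] [Algebra F (FractionRing (MvPolynomial (Fin (N + 1)) k))]
    (T : IntermediateField F (FractionRing (MvPolynomial (Fin (N + 1)) k)))
    (hk : ∀ a : k, algebraMap k (FractionRing (MvPolynomial (Fin (N + 1)) k)) a ∈ T)
    (hX : ∀ i, algebraMap (MvPolynomial (Fin (N + 1)) k)
      (FractionRing (MvPolynomial (Fin (N + 1)) k)) (X i) ∈ T) : T = ⊤ := by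
  rw [eq_top_iff]
  rintro x -
  have hp : ∀ p : MvPolynomial (Fin (N + 1)) k, algebraMap (MvPolynomial (Fin (N + 1)) k)
      (FractionRing (MvPolynomial (Fin (N + 1)) k)) p ∈ T := by
    intro p
    induction p using MvPolynomial.induction_on with
    | C a =>
      have : algebraMap (MvPolynomial (Fin (N + 1)) k)
          (FractionRing (MvPolynomial (Fin (N + 1)) k)) (C a) = algebraMap k _ a := by
        rw [IsScalarTower.algebraMap_apply k (MvPolynomial (Fin (N + 1)) k)
          (FractionRing (MvPolynomial (Fin (N + 1)) k)), MvPolynomial.algebraMap_eq]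
      rw [this]
      exact hk a
    | add p q hp hq =>
      rw [map_add]
      exact T.add_mem hp hq
    | mul_X p i hp =>
      rw [map_mul]
      exact T.mul_mem hp (hX i)
  obtain ⟨a, b, -, rfl⟩ := IsFractionRing.div_surjective (A := MvPolynomial (Fin (N + 1)) k) x
  exact T.div_mem (hp a) (hp b)

/-- part (i) of S_deg -/
theorem degI (hv : S_val) (M1 G0 : ℕ) (g : Fin (N + 1) → MvPolynomial (Fin (N + 1)) k)
    (hg : ∀ j, (g j).IsHomogeneous G0) (hg0 : ∀ j, eval (Pi.single 0 1) (g j) ≠ 0)
    (hb : ∀ O : ValuationSubring (FractionRing (MvPolynomial (Fin (N + 1)) k)),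
      (∀ a : k, algebraMap k _ a ∈ O) → ∃ j0, ∀ i j,
        vl O (X i * g j ^ M1) ≤ vl O (X j0 * g j0 ^ M1)) :
    AlgebraicIndependent k (fun j => (X j * g j ^ M1 : MvPolynomial (Fin (N + 1)) k)) ∧
    FiniteDimensional (Fy (fun j => (X j * g j ^ M1 : MvPolynomial (Fin (N + 1)) k)))
      (FractionRing (MvPolynomial (Fin (N + 1)) k)) := by
  classical
  set E := FractionRing (MvPolynomial (Fin (N + 1)) k) with hE
  set y : Fin (N + 1) → MvPolynomial (Fin (N + 1)) k := fun j => X j * g j ^ M1 with hy
  have halg := alg_all hv M1 g hb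
  have hinj : Function.Injective (algebraMap (MvPolynomial (Fin (N + 1)) k) E) :=
    IsFractionRing.injective _ _
  have hgne : ∀ j, g j ≠ 0 := by
    intro j h
    apply hg0 j
    rw [h, map_zero]
  set T : IntermediateField (Fy y) E := algebraicClosure (Fy y) E with hT
  have hTm : ∀ x : E, x ∈ T ↔ IsAlgebraic (Fy y) x := fun x => mem_algebraicClosure_iff
  set ι : MvPolynomial (Fin (N + 1)) k →+* E := algebraMap (MvPolynomial (Fin (N + 1)) k) E with hι
  have hz : ∀ i j, ι (X i * g j ^ M1) ∈ T := fun i j => (hTm _).2 (halg i j)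
  have hkT : ∀ a : k, algebraMap k E a ∈ T := by
    intro a
    rw [hTm]
    have h1 : algebraMap k E a ∈ Fy y := (Fy y).algebraMap_mem a
    exact isAlgebraic_algebraMap (⟨algebraMap k E a, h1⟩ : Fy y)
  have hι0 : ∀ f : MvPolynomial (Fin (N + 1)) k, f ≠ 0 → ι f ≠ 0 := by
    intro f hf h
    exact hf (hinj (by rw [map_zero]; exact h))
  have hX0 : ι (X 0) ≠ 0 := hι0 _ (X_ne_zero _)
  -- the ratios
  set r : Fin (N + 1) → E := fun i => ι (X i) / ι (X 0) with hr
  have hrT : ∀ i, r i ∈ T := by
    intro i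
    have e : r i = ι (X i * g 0 ^ M1) / ι (X 0 * g 0 ^ M1) := by
      rw [hr, map_mul, map_mul]
      simp only
      rw [mul_div_mul_right _ _ (hι0 _ (pow_ne_zero _ (hgne 0)))]
    rw [e]
    exact T.div_mem (hz i 0) (hz 0 0)
  have hXr : ∀ i, ι (X i) = ι (X 0) * r i := by
    intro i
    rw [hr]
    simp only
    rw [mul_div_cancel₀ _ hX0]
  have hae : ∀ p : MvPolynomial (Fin (N + 1)) k, ι p = aeval (fun i => ι (X i)) p := by
    intro p
    have h1 : (IsScalarTower.toAlgHom k (MvPolynomial (Fin (N + 1)) k) E)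
        = aeval (fun i => ι (X i)) := by
      apply MvPolynomial.algHom_ext
      intro i
      rw [aeval_X]
      rfl
    rw [← h1]
    rfl
  have hgam : ι (g 0) = ι (X 0) ^ G0 * aeval r (g 0) := by
    rw [hae (g 0)]
    have : (fun i => ι (X i)) = fun i => ι (X 0) * r i := funext hXr
    rw [this, aeval_hom_smul (hg 0)]
  have hγT : aeval r (g 0) ∈ T := by
    have h1 : ∀ p : MvPolynomial (Fin (N + 1)) k, aeval r p ∈ T := by
      intro p
      induction p using MvPolynomial.induction_on with
      | C a =>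
        rw [MvPolynomial.algHom_C]
        exact hkT a
      | add p q hp hq =>
        rw [map_add]
        exact T.add_mem hp hq
      | mul_X p i hp =>
        rw [map_mul, aeval_X]
        exact T.mul_mem hp (hrT i)
    exact h1 _
  have hγ0 : aeval r (g 0) ≠ 0 := by
    intro h
    rw [h, mul_zero] at hgam
    exact hι0 _ (hgne 0) hgam
  have hX0T : ι (X 0) ∈ T := by
    have h1 : ι (X 0) ^ (1 + G0 * M1) = ι (X 0 * g 0 ^ M1) / (aeval r (g 0)) ^ M1 := by
      rw [eq_div_iff (pow_ne_zero _ hγ0), map_mul, map_pow, hgam, mul_pow, ← pow_mul, pow_add,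
        pow_one]
      ring
    have h2 : ι (X 0) ^ (1 + G0 * M1) ∈ T := by
      rw [h1]
      exact T.div_mem (hz 0 0) (pow_mem hγT M1)
    rw [hTm] at h2 ⊢
    exact (IsIntegral.of_pow (by omega : 0 < 1 + G0 * M1) h2.isIntegral).isAlgebraic
  have hXT : ∀ i, ι (X i) ∈ T := by
    intro i
    rw [hXr i]
    exact T.mul_mem hX0T (hrT i)
  have hTtop : T = ⊤ := gen_top T hkT hXT
  have hfin : FiniteDimensional (Fy y) E := by
    have h1 : FiniteDimensional (Fy y)
        (IntermediateField.adjoin (Fy y) (Set.range fun i => ι (X i))) := by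
      apply IntermediateField.finiteDimensional_adjoin
      rintro _ ⟨i, rfl⟩
      exact ((hTm _).1 (hXT i)).isIntegral
    have h2 : IntermediateField.adjoin (Fy y) (Set.range fun i => ι (X i)) = ⊤ := by
      apply gen_top
      · intro a
        have h3 : algebraMap k E a ∈ Fy y := (Fy y).algebraMap_mem a
        exact (IntermediateField.adjoin (Fy y) (Set.range fun i => ι (X i))).algebraMap_mem
          (⟨algebraMap k E a, h3⟩ : Fy y)
      · intro i
        exact IntermediateField.subset_adjoin _ _ (Set.mem_range_self i)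
    rw [h2] at h1
    exact LinearEquiv.finiteDimensional
      (IntermediateField.topEquiv (F := Fy y) (E := E)).toLinearEquiv
  refine ⟨?_, hfin⟩
  -- independence
  have halgE : Algebra.IsAlgebraic (Fy y) E := Algebra.IsAlgebraic.of_finite _ _
  have halgA : Algebra.IsAlgebraic (Algebra.adjoin k (Set.range fun j => ι (y j))) E := by
    open scoped IntermediateField.algebraAdjoinAdjoin in
    refine ⟨fun x => ?_⟩
    exact (IsFractionRing.isAlgebraic_iff (Algebra.adjoin k (Set.range fun j => ι (y j)))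
      (IntermediateField.adjoin k (Set.range fun j => ι (y j))) E).2 (halgE.isAlgebraic x)
  have hXind : AlgebraicIndependent k (fun i : Fin (N + 1) => ι (X i)) :=
    (MvPolynomial.algebraicIndependent_X (Fin (N + 1)) k).map'
      (f := IsScalarTower.toAlgHom k (MvPolynomial (Fin (N + 1)) k) E) hinj
  have hcard := hXind.cardinalMk_le_trdeg
  have hbasis := Algebra.IsAlgebraic.isTranscendenceBasis_of_le_trdeg_of_finite k
    (fun j : Fin (N + 1) => ι (y j)) hcard
  have hind : AlgebraicIndependent k (fun j : Fin (N + 1) => ι (y j)) := hbasis.1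
  exact ((AlgHom.algebraicIndependent_iff
    (IsScalarTower.toAlgHom k (MvPolynomial (Fin (N + 1)) k) E) hinj).1 hind)

end

end Pool.Agent.Helper95.VD
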